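import Mathlib

/-! Preimages of sets of positive relative density under convex functions (helper527). -/

set_option autoImplicit false

namespace Pool.Agent.R527.MT

open MeasureTheory Set Filter Topology
open scoped ENNReal NNReal

/-- comparison of slopes of a convex function -/
theorem slope_le {f : ℝ → ℝ} {S : Set ℝ} (hf : ConvexOn ℝ S f) {x x' y y' : ℝ} (hx : x ∈ S)
    (hx' : x' ∈ S) (hy : y ∈ S) (hy' : y' ∈ S) (h1 : x < x') (h2 : x' ≤ y) (h3 : y < y') :
    (f x' - f x) / (x' - x) ≤ (f y' - f y) / (y' - y) := by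
  rcases h2.eq_or_lt with rfl | h2
  · exact hf.slope_mono_adjacent hx hy' h1 h3
  · exact (hf.slope_mono_adjacent hx hy h1 h2).trans (hf.slope_mono_adjacent hx' hy' h2 h3)

/-- one step -/
theorem step {f : ℝ → ℝ} {S F : Set ℝ} (hf : ConvexOn ℝ S f) {a b d c η y : ℝ}
    (hab : a ≤ b) (hbd : b < d) (hS : Icc a d ⊆ S) (hcont : ContinuousOn f (Icc a b))
    (hmono : MonotoneOn f (Icc a b)) (hy : 0 < y) (hη : 0 < η) (hη1 : η ≤ 1) (hc : 0 ≤ c)
    (ha : f a = y) (hb : f b = (1 + η) * y) (hd : f d = (1 + η) * ((1 + η) * y))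
    (hF : ENNReal.ofReal (c * (η * y)) ≤ volume (F ∩ Icc y ((1 + η) * y))) :
    ENNReal.ofReal (c / 2 * (d - b)) ≤ volume (f ⁻¹' F ∩ Icc a b) := by
  set σ : ℝ := η * ((1 + η) * y) / (d - b) with hσ
  have hdb : 0 < d - b := by linarith
  have hσ0 : 0 < σ := by positivity
  have hlip : LipschitzOnWith (Real.toNNReal σ) f (f ⁻¹' F ∩ Icc a b) := by
    apply LipschitzOnWith.of_dist_le_mul
    intro x hx x' hx'
    rw [Real.coe_toNNReal _ hσ0.le]
    have key : ∀ x ∈ Icc a b, ∀ x' ∈ Icc a b, x < x' → |f x - f x'| ≤ σ * |x - x'| := by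
      intro x hx x' hx' hlt
      have h1 := slope_le hf (hS ⟨hx.1, hx.2.trans hbd.le⟩) (hS ⟨hx'.1, hx'.2.trans hbd.le⟩)
        (hS ⟨hab, hbd.le⟩) (hS ⟨hab.trans hbd.le, le_rfl⟩) hlt hx'.2 hbd
      have h2 : (f d - f b) / (d - b) = σ := by
        rw [hσ, hd, hb]; congr 1; ring
      rw [h2, div_le_iff₀ (by linarith)] at h1
      have h3 : f x ≤ f x' := hmono hx hx' hlt.le
      rw [abs_of_nonpos (by linarith), abs_of_nonpos (by linarith)]
      linarith
    rw [Real.dist_eq, Real.dist_eq]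
    rcases lt_trichotomy x x' with h | h | h
    · exact key x hx.2 x' hx'.2 h
    · rw [h]; simp
    · rw [abs_sub_comm, abs_sub_comm x x']
      exact key x' hx'.2 x hx.2 h
  have h1 := hlip.hausdorffMeasure_image_le (d := 1) zero_le_one
  rw [MeasureTheory.hausdorffMeasure_real, ENNReal.rpow_one] at h1
  have h2 : F ∩ Icc y ((1 + η) * y) ⊆ f '' (f ⁻¹' F ∩ Icc a b) := by
    rintro z ⟨hz, hz2⟩
    rw [← ha, show (1 + η) * f a = f b by rw [hb, ha]] at hz2
    obtain ⟨x, hx, rfl⟩ := intermediate_value_Icc hab hcont hz2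
    exact ⟨x, ⟨hz, hx⟩, rfl⟩
  have h3 : ENNReal.ofReal (c * (η * y)) ≤ ENNReal.ofReal σ * volume (f ⁻¹' F ∩ Icc a b) :=
    hF.trans ((measure_mono h2).trans h1)
  have h4 : ENNReal.ofReal σ * ENNReal.ofReal (c / 2 * (d - b)) ≤
      ENNReal.ofReal σ * volume (f ⁻¹' F ∩ Icc a b) := by
    refine le_trans ?_ h3
    rw [← ENNReal.ofReal_mul hσ0.le]
    apply ENNReal.ofReal_le_ofReal
    have : σ * (c / 2 * (d - b)) = c * (η * y) * ((1 + η) / 2) := by
      rw [hσ]; field_simp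
    rw [this]
    have h5 : 0 ≤ c * (η * y) := by positivity
    have h6 : (1 + η) / 2 ≤ 1 := by linarith
    calc c * (η * y) * ((1 + η) / 2) ≤ c * (η * y) * 1 := mul_le_mul_of_nonneg_left h6 h5
      _ = _ := mul_one _
  have h5 : ENNReal.ofReal σ ≠ 0 := by
    rw [Ne, ENNReal.ofReal_eq_zero, not_le]; exact hσ0
  exact (ENNReal.mul_le_mul_iff_right h5 ENNReal.ofReal_ne_top).1 h4

/-- the preimage of a set of positive relative density -/
theorem conv_meas {f : ℝ → ℝ} {F : Set ℝ} {s t a b c η : ℝ} (hf : ConvexOn ℝ (Icc s t) f)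
    (hcont : ContinuousOn f (Icc s t)) (hmono : StrictMonoOn f (Icc s t))
    (hs : 0 < f s) (hη : 0 < η) (hη1 : η ≤ 1) (hc : 0 ≤ c)
    (ha : a ∈ Icc s t) (hb : b ∈ Icc s t) (hfa : (1 + η) * f s ≤ f a) (hfb : (1 + η) * f b ≤ f t)
    (hF : ∀ y, f s ≤ y → ENNReal.ofReal (c * (η * y)) ≤ volume (F ∩ Icc y ((1 + η) * y))) :
    ENNReal.ofReal (c / 2 * (b - a)) ≤ volume (f ⁻¹' F ∩ Icc s t) := by
  have hst : s ≤ t := ha.1.trans ha.2
  have hsS : s ∈ Icc s t := ⟨le_rfl, hst⟩
  have htS : t ∈ Icc s t := ⟨hst, le_rfl⟩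
  have hinv : ∀ y ∈ Icc (f s) (f t), ∃ x ∈ Icc s t, f x = y := fun y hy =>
    intermediate_value_Icc hst hcont hy
  choose! inv hinv1 hinv2 using hinv
  set y : ℕ → ℝ := fun i => (1 + η) ^ i * f s with hy
  have hypos : ∀ i, 0 < y i := fun i => by simp only [hy]; positivity
  have hysucc : ∀ i, y (i + 1) = (1 + η) * y i := fun i => by simp only [hy]; ring
  have hy0 : ∀ i, f s ≤ y i := by
    intro i
    simp only [hy]
    have : (1 : ℝ) ≤ (1 + η) ^ i := one_le_pow₀ (by linarith)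
    nlinarith
  have hymono : Monotone y := monotone_nat_of_le_succ fun i => by
    rw [hysucc]; nlinarith [hypos i]
  -- the last index
  have hex : ∃ m, f t < y m := by
    obtain ⟨m, hm⟩ := pow_unbounded_of_one_lt (f t / f s) (show 1 < 1 + η by linarith)
    refine ⟨m, ?_⟩
    rw [div_lt_iff₀ hs] at hm
    exact hm
  classical
  set n1 := Nat.find hex with hn1
  have hn1a : f t < y n1 := Nat.find_spec hex
  have hfat : f a ≤ f t := hmono.monotoneOn ha htS ha.2
  have hy1 : y 1 ≤ f t := by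
    have : y 1 = (1 + η) * f s := by simp only [hy]; ring
    rw [this]; linarith
  have hn2 : 2 ≤ n1 := by
    by_contra hcon
    have : y n1 ≤ y 1 := hymono (by omega)
    linarith
  obtain ⟨n, hn⟩ : ∃ n, n1 = n + 1 := ⟨n1 - 1, by omega⟩
  have hn1' : 1 ≤ n := by omega
  have hyn : y n ≤ f t := by
    have := Nat.find_min hex (m := n) (by rw [← hn1]; omega)
    exact not_lt.1 this
  have hyin : ∀ i, i ≤ n → y i ∈ Icc (f s) (f t) := fun i hi => ⟨hy0 i, (hymono hi).trans hyn⟩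
  set A : ℕ → ℝ := fun i => inv (y i) with hA
  have hAS : ∀ i ≤ n, A i ∈ Icc s t := fun i hi => hinv1 _ (hyin i hi)
  have hfA : ∀ i ≤ n, f (A i) = y i := fun i hi => hinv2 _ (hyin i hi)
  have hAlt : ∀ i, i + 1 ≤ n → A i < A (i + 1) := by
    intro i hi
    rw [← hmono.lt_iff_lt (hAS i (by omega)) (hAS (i + 1) hi), hfA i (by omega), hfA (i + 1) hi, hysucc]
    nlinarith [hypos i]
  have hA1 : A 1 ≤ a := by
    rw [← hmono.le_iff_le (hAS 1 hn1') ha, hfA 1 hn1']
    have : y 1 = (1 + η) * f s := by simp only [hy]; ring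
    rw [this]; exact hfa
  have hAn : b ≤ A n := by
    rw [← hmono.le_iff_le hb (hAS n le_rfl), hfA n le_rfl]
    rw [hn, hysucc] at hn1a
    have : (1 + η) * f b < (1 + η) * y n := by linarith
    exact (lt_of_mul_lt_mul_left this (by linarith)).le
  have hind : ∀ j, j + 1 ≤ n → ENNReal.ofReal (c / 2 * (A (j + 1) - A 1)) ≤
      volume (f ⁻¹' F ∩ Icc (A 0) (A j)) := by
    intro j
    induction j with
    | zero => intro _; simp
    | succ j ih =>
      intro hj
      have ih' := ih (by omega)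
      have hst' := step (F := F) hf (a := A j) (b := A (j + 1)) (d := A (j + 2)) (c := c) (η := η) (y := y j)
        (hAlt j (by omega)).le (hAlt (j + 1) hj)
        (Icc_subset_Icc (hAS j (by omega)).1 (hAS (j + 2) hj).2)
        (hcont.mono (Icc_subset_Icc (hAS j (by omega)).1 (hAS (j + 1) (by omega)).2))
        (hmono.monotoneOn.mono (Icc_subset_Icc (hAS j (by omega)).1 (hAS (j + 1) (by omega)).2))
        (hypos j) hη hη1 hc (hfA j (by omega)) (by rw [hfA (j + 1) (by omega), hysucc])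
        (by rw [hfA (j + 2) hj, show j + 2 = (j + 1) + 1 from rfl, hysucc, hysucc]) (hF (y j) (hy0 j))
      have hA0j : A 0 ≤ A j := by
        rw [← hmono.le_iff_le (hAS 0 (by omega)) (hAS j (by omega)), hfA 0 (by omega), hfA j (by omega)]
        exact hymono (Nat.zero_le _)
      have hjj := (hAlt j (by omega)).le
      have hsplit : volume (f ⁻¹' F ∩ Icc (A 0) (A (j + 1))) =
          volume (f ⁻¹' F ∩ Icc (A 0) (A j)) + volume (f ⁻¹' F ∩ Ioc (A j) (A (j + 1))) := by
        rw [← measure_inter_add_diff (f ⁻¹' F ∩ Icc (A 0) (A (j + 1))) (measurableSet_Iic (a := A j))]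
        congr 2
        · ext x
          simp only [mem_inter_iff, mem_Icc, mem_Iic]
          constructor
          · rintro ⟨⟨h1, h2, h3⟩, h4⟩; exact ⟨h1, h2, h4⟩
          · rintro ⟨h1, h2, h3⟩; exact ⟨⟨h1, h2, h3.trans hjj⟩, h3⟩
        · ext x
          simp only [mem_diff, mem_inter_iff, mem_Icc, mem_Iic, mem_Ioc, not_le]
          constructor
          · rintro ⟨⟨h1, h2, h3⟩, h4⟩; exact ⟨h1, h4, h3⟩
          · rintro ⟨h1, h2, h3⟩; exact ⟨⟨h1, hA0j.trans h2.le, h3⟩, h2⟩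
      have hIoc : volume (f ⁻¹' F ∩ Icc (A j) (A (j + 1))) ≤
          volume (f ⁻¹' F ∩ Ioc (A j) (A (j + 1))) := by
        have h1 : f ⁻¹' F ∩ Icc (A j) (A (j + 1)) ⊆ (f ⁻¹' F ∩ Ioc (A j) (A (j + 1))) ∪ {A j} := by
          rintro x ⟨h1, h2, h3⟩
          rcases h2.eq_or_lt with h | h
          · right; exact h.symm
          · left; exact ⟨h1, h, h3⟩
        refine (measure_mono h1).trans ((measure_union_le _ _).trans ?_)
        simp
      rw [hsplit]
      calc ENNReal.ofReal (c / 2 * (A (j + 1 + 1) - A 1)) =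
          ENNReal.ofReal (c / 2 * (A (j + 1) - A 1) + c / 2 * (A (j + 2) - A (j + 1))) := by
            congr 1; ring
        _ ≤ ENNReal.ofReal (c / 2 * (A (j + 1) - A 1)) +
            ENNReal.ofReal (c / 2 * (A (j + 2) - A (j + 1))) := ENNReal.ofReal_add_le
        _ ≤ _ := add_le_add ih' (hst'.trans hIoc)
  obtain ⟨j, rfl⟩ : ∃ j, n = j + 1 := ⟨n - 1, by omega⟩
  have h1 := hind j le_rfl
  calc ENNReal.ofReal (c / 2 * (b - a)) ≤ ENNReal.ofReal (c / 2 * (A (j + 1) - A 1)) := by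
        apply ENNReal.ofReal_le_ofReal
        apply mul_le_mul_of_nonneg_left _ (by positivity)
        linarith
    _ ≤ _ := h1
    _ ≤ _ := measure_mono (inter_subset_inter_right _
        (Icc_subset_Icc (hAS 0 (by omega)).1 (hAS j (by omega)).2))

end Pool.Agent.R527.MT
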