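import Mathlib
import Pool.Agent.R527.MT.Conv

/-! A metric theorem for sequences of convex functions (helper527). -/

set_option autoImplicit false

namespace Pool.Agent.R527.MT

open MeasureTheory Set Filter Topology Metric
open scoped ENNReal NNReal

/-- lower bound on every compact subinterval -/
theorem interval_lower {F : Set ℝ} {c : ℝ} (hc : 0 ≤ c)
    (hN : ∀ η : ℝ, 0 < η → η ≤ 1 → ∃ x₀ : ℝ, ∀ x, x₀ ≤ x →
      ENNReal.ofReal (c * (η * x)) ≤ volume (F ∩ Icc x ((1 + η) * x)))
    {I : Set ℝ} (hI : IsOpen I) {g : ℕ → ℝ → ℝ} (hg : ∀ k, ConvexOn ℝ I (g k))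
    (hlim : ∀ t ∈ I, Tendsto (fun k => g k t) atTop atTop)
    (hgr : ∀ s ∈ I, ∀ t ∈ I, s < t → ∃ ρ : ℝ, 1 < ρ ∧ ∀ᶠ k in atTop, ρ * g k s ≤ g k t)
    {s t : ℝ} (hst : s < t) (hIcc : Icc s t ⊆ I) :
    ∀ᶠ k in atTop, ENNReal.ofReal (c / 4 * (t - s)) ≤ volume ((g k) ⁻¹' F ∩ Icc s t) := by
  have hs : s ∈ I := hIcc ⟨le_rfl, hst.le⟩
  have ht : t ∈ I := hIcc ⟨hst.le, le_rfl⟩
  set a := s + (t - s) / 4 with ha
  set b := t - (t - s) / 4 with hb
  have haI : a ∈ Icc s t := ⟨by rw [ha]; linarith, by rw [ha]; linarith⟩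
  have hbI : b ∈ Icc s t := ⟨by rw [hb]; linarith, by rw [hb]; linarith⟩
  obtain ⟨ρ₁, hρ₁, h1⟩ := hgr s hs a (hIcc haI) (by rw [ha]; linarith)
  obtain ⟨ρ₂, hρ₂, h2⟩ := hgr b (hIcc hbI) t ht (by rw [hb]; linarith)
  obtain ⟨ε, hε, hball⟩ := Metric.isOpen_iff.1 hI s hs
  set s' := s - ε / 2 with hs'
  have hs'I : s' ∈ I := hball (by rw [mem_ball, Real.dist_eq, hs']; rw [abs_lt]; constructor <;> linarith)
  obtain ⟨ρ₃, hρ₃, h3⟩ := hgr s' hs'I s hs (by rw [hs']; linarith)
  set η := min 1 (min (ρ₁ - 1) (ρ₂ - 1)) with hη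
  have hη0 : 0 < η := by
    rw [hη]; exact lt_min one_pos (lt_min (by linarith) (by linarith))
  have hη1 : η ≤ 1 := min_le_left _ _
  have hηa : 1 + η ≤ ρ₁ := by
    have : η ≤ ρ₁ - 1 := (min_le_right _ _).trans (min_le_left _ _)
    linarith
  have hηb : 1 + η ≤ ρ₂ := by
    have : η ≤ ρ₂ - 1 := (min_le_right _ _).trans (min_le_right _ _)
    linarith
  obtain ⟨x₀, hx₀⟩ := hN η hη0 hη1
  filter_upwards [h1, h2, h3, (hlim s hs).eventually_ge_atTop (max x₀ 1),
    (hlim b (hIcc hbI)).eventually_ge_atTop 1, (hlim s' hs'I).eventually_ge_atTop 1]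
    with k e1 e2 e3 e4 e5 e6
  have hgs : 1 ≤ g k s := (le_max_right _ _).trans e4
  have hlt : g k s' < g k s := by nlinarith
  have hmono : StrictMonoOn (g k) (Icc s t) := by
    refine ((hg k).strictMonoOn hs'I (by rw [hs']; linarith) hlt).mono ?_
    intro x hx
    exact ⟨hIcc hx, hx.1⟩
  have hcont : ContinuousOn (g k) (Icc s t) := ((hg k).continuousOn hI).mono hIcc
  have hconv : ConvexOn ℝ (Icc s t) (g k) := (hg k).subset hIcc (convex_Icc s t)
  have := conv_meas (F := F) (c := c) (η := η) hconv hcont hmono (by linarith) hη0 hη1 hc haI hbI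
    (by nlinarith) (by nlinarith)
    (fun y hy => hx₀ y ((le_max_left _ _).trans (e4.trans hy)))
  refine le_trans (ENNReal.ofReal_le_ofReal (le_of_eq ?_)) this
  rw [ha, hb]; ring

open Classical in
/-- **the metric theorem** -/
theorem metric {F : Set ℝ} (hFm : MeasurableSet F) {c : ℝ} (hc : 0 < c) (hc1 : c ≤ 1)
    (hN : ∀ η : ℝ, 0 < η → η ≤ 1 → ∃ x₀ : ℝ, ∀ x, x₀ ≤ x →
      ENNReal.ofReal (c * (η * x)) ≤ volume (F ∩ Icc x ((1 + η) * x)))
    {I : Set ℝ} (hI : IsOpen I) {g : ℕ → ℝ → ℝ} (hg : ∀ k, ConvexOn ℝ I (g k))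
    (hlim : ∀ t ∈ I, Tendsto (fun k => g k t) atTop atTop)
    (hgr : ∀ s ∈ I, ∀ t ∈ I, s < t → ∃ ρ : ℝ, 1 < ρ ∧ ∀ᶠ k in atTop, ρ * g k s ≤ g k t) :
    ∀ᵐ t ∂(volume.restrict I), ∃ᶠ K : ℕ in atTop,
      c / 16 * K ≤ (((Finset.range K).filter (fun k => g k t ∈ F)).card : ℝ) := by
  set δ : ℝ := c / 16 with hδ
  have hδ0 : 0 < δ := by positivity
  have hδ1 : δ < 1 := by rw [hδ]; linarith
  set E : ℕ → Set ℝ := fun k => I ∩ (g k) ⁻¹' F with hE
  have hEm : ∀ k, MeasurableSet (E k) := by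
    intro k
    have h1 : Measurable (I.restrict (g k)) :=
      (continuousOn_iff_continuous_restrict.1 ((hg k).continuousOn hI)).measurable
    have h2 := MeasurableSet.subtype_image hI.measurableSet (h1 hFm)
    convert h2 using 1
    ext x
    simp only [hE, mem_inter_iff, mem_preimage, mem_image, Subtype.exists, exists_and_right,
      exists_eq_right]
    constructor
    · rintro ⟨h3, h4⟩; exact ⟨h3, h4⟩
    · rintro ⟨h3, h4⟩; exact ⟨h3, h4⟩
  set N : ℕ → ℝ → ℕ := fun K t => ((Finset.range K).filter (fun k => g k t ∈ F)).card with hNdef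
  set h : ℕ → ℝ → ℝ≥0∞ := fun K t => ∑ k ∈ Finset.range K, (E k).indicator (fun _ => (1 : ℝ≥0∞)) t with hh
  have hhm : ∀ K, Measurable (h K) := by
    intro K
    apply Finset.measurable_sum
    intro k _
    exact measurable_const.indicator (hEm k)
  have hhN : ∀ K, ∀ t ∈ I, h K t = N K t := by
    intro K t ht
    simp only [hh, hNdef]
    rw [Finset.card_filter]
    push_cast
    apply Finset.sum_congr rfl
    intro k _
    by_cases hk : g k t ∈ F
    · rw [if_pos hk, indicator_of_mem (show t ∈ E k from ⟨ht, hk⟩)]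
    · rw [if_neg hk, indicator_of_notMem (fun h3 => hk h3.2)]
  set W : ℕ → Set ℝ := fun K₀ => {t | t ∈ I ∧ ∀ K, K₀ ≤ K → (N K t : ℝ) < δ * K} with hW
  have hWm : ∀ K₀, MeasurableSet (W K₀) := by
    intro K₀
    have h1 : W K₀ = I ∩ ⋂ K ∈ {K : ℕ | K₀ ≤ K}, {t | h K t < ENNReal.ofReal (δ * K)} := by
      ext t
      simp only [hW, mem_setOf_eq, mem_inter_iff, mem_iInter]
      constructor
      · rintro ⟨h2, h3⟩
        refine ⟨h2, fun K hK => ?_⟩
        rw [hhN K t h2, ← ENNReal.ofReal_natCast]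
        have h4 := h3 K hK
        exact (ENNReal.ofReal_lt_ofReal_iff (lt_of_le_of_lt (Nat.cast_nonneg _) h4)).2 h4
      · rintro ⟨h2, h3⟩
        refine ⟨h2, fun K hK => ?_⟩
        have h4 := h3 K hK
        rw [hhN K t h2, ← ENNReal.ofReal_natCast] at h4
        exact (ENNReal.ofReal_lt_ofReal_iff_of_nonneg (Nat.cast_nonneg _)).1 h4
    rw [h1]
    refine hI.measurableSet.inter (MeasurableSet.biInter (to_countable _) fun K _ => ?_)
    exact measurableSet_lt (hhm K) measurable_const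
  have hnull : ∀ K₀, volume (W K₀) = 0 := by
    intro K₀
    by_contra hne
    have hdens := IsUnifLocDoublingMeasure.ae_tendsto_measure_inter_div (volume : Measure ℝ) (W K₀) 1
    rw [ae_restrict_iff' (hWm K₀)] at hdens
    obtain ⟨x, hxW, hx⟩ := ((frequently_ae_mem_iff.2 hne).and_eventually hdens).exists
    have hxd := hx hxW (fun _ : ℕ => x) (fun j : ℕ => 1 / ((j : ℝ) + 1)) (by
      rw [tendsto_nhdsWithin_iff]
      refine ⟨tendsto_one_div_add_atTop_nhds_zero_nat, Eventually.of_forall fun j => ?_⟩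
      simp only [mem_Ioi]; positivity) (Eventually.of_forall fun j => by
        apply mem_closedBall_self; positivity)
    have hlt : ENNReal.ofReal (1 - δ) < 1 := by
      rw [← ENNReal.ofReal_one, ENNReal.ofReal_lt_ofReal_iff one_pos]; linarith
    have hev1 := hxd.eventually (lt_mem_nhds hlt)
    obtain ⟨ε, hε, hball⟩ := Metric.isOpen_iff.1 hI x hxW.1
    have hev2 : ∀ᶠ j : ℕ in atTop, 1 / ((j : ℝ) + 1) < ε :=
      (tendsto_one_div_add_atTop_nhds_zero_nat (𝕜 := ℝ)).eventually (gt_mem_nhds hε)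
    obtain ⟨j, hj1, hj2⟩ := (hev1.and hev2).exists
    set r : ℝ := 1 / ((j : ℝ) + 1) with hr
    have hr0 : 0 < r := by positivity
    have hJ : closedBall x r = Icc (x - r) (x + r) := Real.closedBall_eq_Icc
    rw [hJ] at hj1
    have hvJ : volume (Icc (x - r) (x + r)) = ENNReal.ofReal (2 * r) := by
      rw [Real.volume_Icc]; congr 1; ring
    have hJI : Icc (x - r) (x + r) ⊆ I := by
      intro z hz
      apply hball
      rw [mem_ball, Real.dist_eq]
      have : |z - x| ≤ r := abs_le.2 ⟨by linarith [hz.1], by linarith [hz.2]⟩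
      linarith
    set J := Icc (x - r) (x + r) with hJd
    have hJm : MeasurableSet J := measurableSet_Icc
    have hWJ : ENNReal.ofReal ((1 - δ) * (2 * r)) ≤ volume (W K₀ ∩ J) := by
      rw [hvJ, ENNReal.lt_div_iff_mul_lt (Or.inl (by
        rw [Ne, ENNReal.ofReal_eq_zero, not_le]; positivity)) (Or.inl ENNReal.ofReal_ne_top)] at hj1
      rw [ENNReal.ofReal_mul (by linarith)]
      exact hj1.le
    have hJW : volume (J \ W K₀) ≤ ENNReal.ofReal (δ * (2 * r)) := by
      have h1 : volume (J \ W K₀) + volume (W K₀ ∩ J) = volume J := by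
        rw [inter_comm, add_comm]
        exact measure_inter_add_sdiff J (hWm K₀)
      have h2 : volume (J \ W K₀) + ENNReal.ofReal ((1 - δ) * (2 * r)) ≤
          ENNReal.ofReal (δ * (2 * r)) + ENNReal.ofReal ((1 - δ) * (2 * r)) := by
        rw [← ENNReal.ofReal_add (by positivity) (mul_nonneg (by linarith) (by positivity))]
        have e : δ * (2 * r) + (1 - δ) * (2 * r) = 2 * r := by ring
        rw [e, ← hvJ, ← h1]
        exact add_le_add le_rfl hWJ
      exact (ENNReal.add_le_add_iff_right ENNReal.ofReal_ne_top).1 h2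
    have hlow := interval_lower hc.le hN hI hg hlim hgr (s := x - r) (t := x + r) (by linarith) hJI
    obtain ⟨k₀, hk₀⟩ := eventually_atTop.1 hlow
    -- the integrals
    set K := 2 * (k₀ + K₀) + 1 with hK
    have hint : ∫⁻ t in J, h K t = ∑ k ∈ Finset.range K, volume (E k ∩ J) := by
      simp only [hh]
      rw [lintegral_finset_sum _ (fun k _ => measurable_const.indicator (hEm k))]
      apply Finset.sum_congr rfl
      intro k _
      rw [lintegral_indicator_const (hEm k), one_mul, Measure.restrict_apply (hEm k)]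
    have hupper : ∫⁻ t in J, h K t ≤ ENNReal.ofReal (4 * δ * K * r) := by
      have h1 : ∫⁻ t in J, h K t = (∫⁻ t in J ∩ W K₀, h K t) + ∫⁻ t in J \ W K₀, h K t :=
        (lintegral_inter_add_sdiff (h K) J (hWm K₀)).symm
      have h2 : ∫⁻ t in J ∩ W K₀, h K t ≤ ENNReal.ofReal (δ * K) * volume (J ∩ W K₀) := by
        calc ∫⁻ t in J ∩ W K₀, h K t ≤ ∫⁻ _t in J ∩ W K₀, ENNReal.ofReal (δ * K) := by
              apply setLIntegral_mono' (hJm.inter (hWm K₀))
              intro t ht
              rw [hhN K t ht.2.1, ← ENNReal.ofReal_natCast]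
              exact ENNReal.ofReal_le_ofReal (ht.2.2 K (by omega)).le
          _ = _ := setLIntegral_const _ _
      have h3 : ∫⁻ t in J \ W K₀, h K t ≤ (K : ℝ≥0∞) * volume (J \ W K₀) := by
        calc ∫⁻ t in J \ W K₀, h K t ≤ ∫⁻ _t in J \ W K₀, (K : ℝ≥0∞) := by
              apply setLIntegral_mono' (hJm.diff (hWm K₀))
              intro t ht
              rw [hhN K t (hJI ht.1)]
              have : N K t ≤ K := by
                simp only [hNdef]
                exact (Finset.card_filter_le _ _).trans (by simp)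
              exact_mod_cast this
          _ = _ := setLIntegral_const _ _
      have h4 : volume (J ∩ W K₀) ≤ ENNReal.ofReal (2 * r) := by
        rw [← hvJ]; exact measure_mono inter_subset_left
      rw [h1]
      calc _ ≤ ENNReal.ofReal (δ * K) * ENNReal.ofReal (2 * r) +
            (K : ℝ≥0∞) * ENNReal.ofReal (δ * (2 * r)) :=
            add_le_add (h2.trans (mul_le_mul_right h4 _)) (h3.trans (mul_le_mul_right hJW _))
        _ = ENNReal.ofReal (4 * δ * K * r) := by
            rw [← ENNReal.ofReal_natCast, ← ENNReal.ofReal_mul (by positivity),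
              ← ENNReal.ofReal_mul (Nat.cast_nonneg _), ← ENNReal.ofReal_add (by positivity) (by positivity)]
            congr 1; ring
    have hlower : ENNReal.ofReal (((k₀ : ℝ) + 2 * K₀ + 1) * (c / 4 * (2 * r))) ≤ ∫⁻ t in J, h K t := by
      rw [hint]
      have h1 : (Finset.Ico k₀ K) ⊆ Finset.range K := by
        intro k hk
        rw [Finset.mem_Ico] at hk
        exact Finset.mem_range.2 hk.2
      calc ENNReal.ofReal (((k₀ : ℝ) + 2 * K₀ + 1) * (c / 4 * (2 * r))) =
          ∑ k ∈ Finset.Ico k₀ K, ENNReal.ofReal (c / 4 * (2 * r)) := by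
            rw [Finset.sum_const, Nat.card_Ico, nsmul_eq_mul, ← ENNReal.ofReal_natCast,
              ← ENNReal.ofReal_mul (Nat.cast_nonneg _)]
            congr 2
            rw [hK, Nat.cast_sub (by omega)]
            push_cast; ring
        _ ≤ ∑ k ∈ Finset.Ico k₀ K, volume (E k ∩ J) := by
            apply Finset.sum_le_sum
            intro k hk
            rw [Finset.mem_Ico] at hk
            have h2 := hk₀ k hk.1
            have e : x + r - (x - r) = 2 * r := by ring
            rw [e] at h2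
            refine h2.trans (measure_mono ?_)
            rintro t ⟨ht1, ht2⟩
            exact ⟨⟨hJI ht2, ht1⟩, ht2⟩
        _ ≤ _ := Finset.sum_le_sum_of_subset h1
    have hfin := hlower.trans hupper
    rw [ENNReal.ofReal_le_ofReal_iff (by positivity)] at hfin
    have hKr : (K : ℝ) = 2 * ((k₀ : ℝ) + K₀) + 1 := by rw [hK]; push_cast; ring
    rw [hKr, hδ] at hfin
    have h5 : 0 < c * r := by positivity
    have h6 : ((k₀ : ℝ) + 2 * K₀ + 1) * (c / 4 * (2 * r)) - 4 * (c / 16) * (2 * ((k₀ : ℝ) + K₀) + 1) * r =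
      c * r * (1 / 2 * K₀ + 1 / 4) := by ring
    have h7 : (0 : ℝ) ≤ K₀ := Nat.cast_nonneg _
    have h8 : 0 < c * r * (1 / 2 * K₀ + 1 / 4) := by positivity
    linarith
  rw [ae_restrict_iff' hI.measurableSet]
  have hU : volume (⋃ K₀, W K₀) = 0 := measure_iUnion_null hnull
  filter_upwards [compl_mem_ae_iff.2 hU] with t ht htI
  by_contra hcon
  rw [not_frequently] at hcon
  obtain ⟨K₀, hK₀⟩ := eventually_atTop.1 hcon
  apply ht
  rw [mem_iUnion]
  exact ⟨K₀, htI, fun K hK => not_le.1 (hK₀ K hK)⟩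

end Pool.Agent.R527.MT
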