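import Mathlib
import Pool.Agent.Helper507.PNT
import Pool.Agent.Erdos456.Iface
import Pool.Agent.Erdos456.Mertens

/-! Primes in windows `(X, X + η X]`: a positive proportion of the integers is followed closely by a
prime (helper527). -/

set_option autoImplicit false

namespace Pool.Agent.R527.MT

open Finset Filter Topology

theorem tLog : Tendsto (fun N : ℕ => Real.log (N : ℝ)) atTop atTop :=
  Real.tendsto_log_atTop.comp tendsto_natCast_atTop_atTop

/-- the logarithm is small -/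
theorem log_small (e : ℝ) (he : 0 < e) : ∀ᶠ X : ℕ in atTop, Real.log (X : ℝ) ≤ e * Real.sqrt X := by
  have h1 := (isLittleO_log_rpow_atTop (show (0 : ℝ) < 1 / 2 by norm_num))
  have h2 := (h1.comp_tendsto tendsto_natCast_atTop_atTop).bound he
  filter_upwards [h2, eventually_ge_atTop 1] with x hx h1
  have hx1 : (1 : ℝ) ≤ x := by exact_mod_cast h1
  have hl : 0 ≤ Real.log (x : ℝ) := Real.log_nonneg hx1
  simp only [Function.comp_apply, Real.norm_eq_abs] at hx
  rw [abs_of_nonneg hl, abs_of_nonneg (by positivity)] at hx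
  rwa [Real.sqrt_eq_rpow]

/-- the size of the window -/
theorem floor_ge (η : ℝ) (hη : 0 < η) : ∀ᶠ X : ℕ in atTop, η / 2 * X ≤ (⌊η * X⌋₊ : ℝ) := by
  have t : Tendsto (fun N : ℕ => (N : ℝ)) atTop atTop := tendsto_natCast_atTop_atTop
  filter_upwards [t.eventually_ge_atTop (2 / η)] with X hX
  have h1 := Nat.lt_floor_add_one (η * X)
  rw [div_le_iff₀ hη] at hX
  nlinarith

/-- the prime number theorem in windows -/
theorem pnt_window (η : ℝ) (hη : 0 < η) (hη1 : η ≤ 1) : ∀ᶠ X : ℕ in atTop,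
    (⌊η * X⌋₊ : ℝ) / (4 * Real.log X) ≤
      (((Ioc X (X + ⌊η * X⌋₊)).filter Nat.Prime).card : ℝ) := by
  have h1 := Pool.Agent.Helper507.PNT.theta_div_tendsto
  have h2 : ∀ᶠ x : ℝ in atTop, |Chebyshev.theta x / x - 1| < η / 16 := by
    have := (tendsto_order.1 (tendsto_iff_dist_tendsto_zero.1 h1)).2 (η / 16) (by positivity)
    filter_upwards [this] with x hx
    rwa [Real.dist_eq] at hx
  obtain ⟨z₀, hz₀⟩ := eventually_atTop.1 h2
  have t : Tendsto (fun N : ℕ => (N : ℝ)) atTop atTop := tendsto_natCast_atTop_atTop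
  filter_upwards [t.eventually_ge_atTop (max z₀ 2), floor_ge η hη, tLog.eventually_ge_atTop 1]
    with X hX hfl hL
  set y := ⌊η * X⌋₊ with hy
  have hX2 : (2 : ℝ) ≤ X := (le_max_right _ _).trans hX
  have hXz : z₀ ≤ (X : ℝ) := (le_max_left _ _).trans hX
  have hyX : (y : ℝ) ≤ η * X := Nat.floor_le (by positivity)
  have hyX1 : (y : ℝ) ≤ X := by nlinarith
  have e1 := hz₀ X hXz
  have e2 := hz₀ ((X + y : ℕ) : ℝ) (by push_cast; have : (0:ℝ) ≤ y := Nat.cast_nonneg _; linarith)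
  have hX0 : (0 : ℝ) < X := by linarith
  have hXy0 : (0 : ℝ) < ((X + y : ℕ) : ℝ) := by push_cast; positivity
  rw [abs_lt] at e1 e2
  have e3 : Chebyshev.theta X ≤ (1 + η / 16) * X := by
    have := e1.2
    rw [sub_lt_iff_lt_add, div_lt_iff₀ hX0] at this
    linarith
  have e4 : (1 - η / 16) * ((X + y : ℕ) : ℝ) ≤ Chebyshev.theta ((X + y : ℕ) : ℝ) := by
    have := e2.1
    rw [lt_sub_iff_add_lt, lt_div_iff₀ hXy0] at this
    linarith
  have e5 : Chebyshev.theta ((X + y : ℕ) : ℝ) - Chebyshev.theta X =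
      ∑ p ∈ (Ioc X (X + y)).filter Nat.Prime, Real.log p := by
    unfold Chebyshev.theta
    rw [Nat.floor_natCast, Nat.floor_natCast]
    have hset : (Ioc 0 (X + y)).filter Nat.Prime =
        (Ioc 0 X).filter Nat.Prime ∪ (Ioc X (X + y)).filter Nat.Prime := by
      ext p
      simp only [mem_filter, mem_union, mem_Ioc]
      constructor
      · rintro ⟨⟨a1, a2⟩, a3⟩
        by_cases h : p ≤ X
        · left; exact ⟨⟨a1, h⟩, a3⟩
        · right; exact ⟨⟨by omega, a2⟩, a3⟩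
      · rintro (⟨⟨a1, a2⟩, a3⟩ | ⟨⟨a1, a2⟩, a3⟩)
        · exact ⟨⟨a1, by omega⟩, a3⟩
        · exact ⟨⟨by omega, a2⟩, a3⟩
    have hdisj : Disjoint ((Ioc 0 X).filter Nat.Prime) ((Ioc X (X + y)).filter Nat.Prime) := by
      rw [Finset.disjoint_left]
      intro p hp hp'
      rw [mem_filter, mem_Ioc] at hp hp'
      omega
    rw [hset, Finset.sum_union hdisj]
    ring
  have e6 : ∑ p ∈ (Ioc X (X + y)).filter Nat.Prime, Real.log p ≤
      (((Ioc X (X + y)).filter Nat.Prime).card : ℝ) * (2 * Real.log X) := by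
    rw [← nsmul_eq_mul]
    apply sum_le_card_nsmul
    intro p hp
    rw [mem_filter, mem_Ioc] at hp
    have hp0 : (0 : ℝ) < p := by exact_mod_cast hp.2.pos
    have a1 : (p : ℝ) ≤ X + y := by exact_mod_cast hp.1.2
    have a2 : (p : ℝ) ≤ (X : ℝ) ^ 2 := by nlinarith
    calc Real.log p ≤ Real.log ((X : ℝ) ^ 2) := Real.log_le_log hp0 a2
      _ = 2 * Real.log X := by rw [Real.log_pow]; norm_num
  have e7 : (y : ℝ) / 2 ≤ Chebyshev.theta ((X + y : ℕ) : ℝ) - Chebyshev.theta X := by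
    push_cast at e4 ⊢
    nlinarith
  rw [div_le_iff₀ (by positivity)]
  rw [e5] at e7
  linarith

open Pool.Agent.Erdos456 in
/-- close pairs of primes are rare -/
theorem pairs : ∃ C : ℝ, 0 < C ∧ ∀ X y d : ℕ, 2 ≤ y →
    (((Ioc X (X + y)).filter (fun q => q.Prime ∧ ∃ h ∈ Icc 1 d, (q - h).Prime ∧ X + h < q)).card : ℝ) ≤
      C * d * (y / Real.log y ^ 2) := by
  obtain ⟨C₀, hC₀, h0⟩ := sieve_two'
  obtain ⟨C₁, hC₁⟩ := Mert.totRatio_moment
  refine ⟨C₀ * (max C₁ 1), by positivity, fun X y d hy => ?_⟩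
  have hly : 0 < Real.log y := Real.log_pos (by exact_mod_cast (by omega : 1 < y))
  have h1 : ((Ioc X (X + y)).filter (fun q => q.Prime ∧ ∃ h ∈ Icc 1 d, (q - h).Prime ∧ X + h < q)).card ≤
      ∑ h ∈ Icc 1 d, ((Icc 1 y).filter (fun n => (1 * n + X).Prime ∧ (1 * n + (X + h)).Prime)).card := by
    calc _ ≤ ((Icc 1 d).biUnion (fun h => ((Icc 1 y).filter
          (fun n => (1 * n + X).Prime ∧ (1 * n + (X + h)).Prime)).image (fun n => n + X + h))).card := by
          apply card_le_card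
          intro q hq
          rw [mem_filter, mem_Ioc] at hq
          obtain ⟨⟨a1, a2⟩, a3, h, a4, a5, a6⟩ := hq
          rw [mem_biUnion]
          rw [mem_Icc] at a4
          refine ⟨h, mem_Icc.2 a4, ?_⟩
          rw [mem_image]
          refine ⟨q - h - X, ?_, by omega⟩
          rw [mem_filter, mem_Icc]
          refine ⟨by omega, ?_, ?_⟩
          · rw [show 1 * (q - h - X) + X = q - h by omega]; exact a5
          · rw [show 1 * (q - h - X) + (X + h) = q by omega]; exact a3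
      _ ≤ ∑ h ∈ Icc 1 d, (((Icc 1 y).filter
          (fun n => (1 * n + X).Prime ∧ (1 * n + (X + h)).Prime)).image (fun n => n + X + h)).card :=
          card_biUnion_le
      _ ≤ _ := sum_le_sum fun h _ => card_image_le
  have h2 : ∀ h ∈ Icc 1 d, (((Icc 1 y).filter
      (fun n => (1 * n + X).Prime ∧ (1 * n + (X + h)).Prime)).card : ℝ) ≤
      C₀ * (GG h) ^ 2 * (y / Real.log y ^ 2) := by
    intro h hh
    rw [mem_Icc] at hh
    have := h0 1 X 1 (X + h) y one_pos one_pos (Nat.coprime_one_left _) (Nat.coprime_one_left _)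
      (by omega) hy
    refine this.trans (le_of_eq ?_)
    have e : (1 * 1 * (((1 * (X + h) : ℕ) : ℤ) - ((1 * X : ℕ) : ℤ)).natAbs) = h := by
      push_cast
      rw [one_mul, one_mul, one_mul, add_sub_cancel_left, Int.natAbs_natCast]
    rw [e]
    ring
  have h3 : ∑ h ∈ Icc 1 d, GG h ^ 2 ≤ (max C₁ 1) * d := by
    calc ∑ h ∈ Icc 1 d, GG h ^ 2 ≤ ∑ h ∈ Icc 1 d, GG h ^ 6 := by
          apply sum_le_sum
          intro h hh
          rw [mem_Icc] at hh
          exact GG_sq_le_six hh.1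
      _ ≤ C₁ * d := hC₁ d
      _ ≤ _ := mul_le_mul_of_nonneg_right (le_max_left _ _) (Nat.cast_nonneg _)
  calc (((Ioc X (X + y)).filter (fun q => q.Prime ∧ ∃ h ∈ Icc 1 d, (q - h).Prime ∧ X + h < q)).card : ℝ)
      ≤ ∑ h ∈ Icc 1 d, (((Icc 1 y).filter
        (fun n => (1 * n + X).Prime ∧ (1 * n + (X + h)).Prime)).card : ℝ) := by exact_mod_cast h1
    _ ≤ ∑ h ∈ Icc 1 d, C₀ * (GG h) ^ 2 * (y / Real.log y ^ 2) := sum_le_sum h2
    _ = C₀ * (y / Real.log y ^ 2) * ∑ h ∈ Icc 1 d, GG h ^ 2 := by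
        rw [mul_sum]; exact sum_congr rfl fun h _ => by ring
    _ ≤ C₀ * (y / Real.log y ^ 2) * ((max C₁ 1) * d) := mul_le_mul_of_nonneg_left h3 (by positivity)
    _ = _ := by ring

open Classical in
/-- a positive proportion of the integers is followed closely by a prime -/
theorem near_prime : ∃ δ : ℝ, 0 < δ ∧ δ ≤ 1 ∧ ∀ η : ℝ, 0 < η → η ≤ 1 → ∀ᶠ X : ℕ in atTop,
    δ / 16 * ⌊η * X⌋₊ ≤ (((Ioc X (X + ⌊η * X⌋₊)).filter
      (fun n => ∃ p : ℕ, p.Prime ∧ n < p ∧ p ≤ n + ⌊δ * Real.log X⌋₊)).card : ℝ) := by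
  obtain ⟨C, hC, hp⟩ := pairs
  set δ : ℝ := min 1 (1 / (64 * C)) with hδ
  have hδ0 : 0 < δ := by positivity
  have hδ1 : δ ≤ 1 := min_le_left _ _
  have hδC : δ * (64 * C) ≤ 1 := by
    calc δ * (64 * C) ≤ 1 / (64 * C) * (64 * C) :=
          mul_le_mul_of_nonneg_right (min_le_right _ _) (by positivity)
      _ = 1 := by field_simp
  refine ⟨δ, hδ0, hδ1, fun η hη hη1 => ?_⟩
  have t : Tendsto (fun N : ℕ => (N : ℝ)) atTop atTop := tendsto_natCast_atTop_atTop
  filter_upwards [pnt_window η hη hη1, floor_ge η hη, tLog.eventually_ge_atTop (max 1 (2 / δ)),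
    log_small (η / 32) (by positivity), t.eventually_ge_atTop (16 / η ^ 2)]
    with X h1 h2 h3 h4 h5
  set y := ⌊η * X⌋₊ with hy
  set L := Real.log (X : ℝ) with hL
  have hL1 : 1 ≤ L := (le_max_left _ _).trans h3
  have hLδ : 2 / δ ≤ L := (le_max_right _ _).trans h3
  have hL0 : 0 < L := by linarith
  have hX16 : 16 ≤ (X : ℝ) * η ^ 2 := by rwa [div_le_iff₀ (by positivity)] at h5
  have hη2 : η ^ 2 ≤ 1 := by nlinarith
  have hX0 : (0 : ℝ) < X := by
    by_contra hcon
    rw [not_lt] at hcon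
    nlinarith [sq_nonneg η]
  have hXs : Real.sqrt X * Real.sqrt X = X := Real.mul_self_sqrt hX0.le
  have hsq4 : 4 ≤ η * Real.sqrt X := by
    have : (4 : ℝ) ^ 2 ≤ (η * Real.sqrt X) ^ 2 := by
      rw [mul_pow, Real.sq_sqrt hX0.le]; linarith
    exact (pow_le_pow_iff_left₀ (by norm_num) (by positivity) two_ne_zero).1 this
  have hsq0 : 0 < Real.sqrt X := Real.sqrt_pos.2 hX0
  -- `y ≥ √X`
  have hys : Real.sqrt X ≤ y := by
    refine le_trans ?_ h2
    nlinarith
  have hy2 : 2 ≤ y := by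
    have : (2 : ℝ) ≤ y := by
      have h6 : 4 ≤ Real.sqrt X := by nlinarith
      linarith
    exact_mod_cast this
  have hly : L / 2 ≤ Real.log y := by
    have e1 : Real.log (Real.sqrt X) = L / 2 := by rw [Real.log_sqrt hX0.le]
    rw [← e1]
    exact Real.log_le_log hsq0 hys
  have hy0 : (0 : ℝ) < y := by exact_mod_cast (by omega : 0 < y)
  set d := ⌊δ * L⌋₊ with hd
  have hdL : (d : ℝ) ≤ δ * L := Nat.floor_le (by positivity)
  have hdL1 : (d : ℝ) ≤ L := by nlinarith
  have hdl : δ * L / 2 ≤ d := by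
    have := Nat.lt_floor_add_one (δ * L)
    rw [div_le_iff₀ hδ0] at hLδ
    rw [hd]
    linarith
  -- `d ≤ y / (16 L)`
  have hdy : (d : ℝ) ≤ y / (16 * L) := by
    rw [le_div_iff₀ (by positivity)]
    have e1 : L * L ≤ (η / 32 * Real.sqrt X) * (η / 32 * Real.sqrt X) :=
      mul_le_mul h4 h4 hL0.le (by positivity)
    have e2 : (η / 32 * Real.sqrt X) * (η / 32 * Real.sqrt X) = η ^ 2 / 1024 * X := by
      calc _ = η ^ 2 / 1024 * (Real.sqrt X * Real.sqrt X) := by ring
        _ = _ := by rw [hXs]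
    have e3 : η ^ 2 ≤ η := by nlinarith
    have e4 : η ^ 2 * (X : ℝ) ≤ η * X := mul_le_mul_of_nonneg_right e3 hX0.le
    nlinarith
  set Pr := (Ioc X (X + y)).filter Nat.Prime with hPr
  set Bd := (Ioc X (X + y)).filter (fun q => q.Prime ∧ ∃ h ∈ Icc 1 d, (q - h).Prime ∧ X + h < q) with hBd
  set Q := Pr \ (Bd ∪ Ioc X (X + d)) with hQ
  have hBdc : (Bd.card : ℝ) ≤ y / (16 * L) := by
    refine (hp X y d hy2).trans ?_
    have e1 : (y : ℝ) / Real.log y ^ 2 ≤ y / (L / 2) ^ 2 := by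
      apply div_le_div_of_nonneg_left hy0.le (by positivity)
      exact pow_le_pow_left₀ (by positivity) hly 2
    calc C * d * (y / Real.log y ^ 2) ≤ C * (δ * L) * (y / (L / 2) ^ 2) := by
          apply mul_le_mul (mul_le_mul_of_nonneg_left hdL hC.le) e1 (by positivity) (by positivity)
      _ = (δ * (64 * C)) * (y / (16 * L)) := by field_simp; ring
      _ ≤ 1 * (y / (16 * L)) := mul_le_mul_of_nonneg_right hδC (by positivity)
      _ = _ := one_mul _
  have hQc : (y : ℝ) / (8 * L) ≤ Q.card := by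
    have e1 : Pr.card ≤ Q.card + (Bd.card + d) := by
      calc Pr.card ≤ (Q ∪ (Bd ∪ Ioc X (X + d))).card := by
            apply card_le_card
            rw [hQ, sdiff_union_self_eq_union]
            exact subset_union_left
        _ ≤ Q.card + (Bd ∪ Ioc X (X + d)).card := card_union_le _ _
        _ ≤ Q.card + (Bd.card + (Ioc X (X + d)).card) := Nat.add_le_add_left (card_union_le _ _) _
        _ = _ := by rw [Nat.card_Ioc]; congr 2; omega
    have e2 : (Pr.card : ℝ) ≤ Q.card + (Bd.card + d) := by exact_mod_cast e1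
    have e3 : (y : ℝ) / (4 * L) = 4 * (y / (16 * L)) := by field_simp; norm_num
    have e4 : (y : ℝ) / (8 * L) = 2 * (y / (16 * L)) := by field_simp; norm_num
    rw [e4]
    rw [e3] at h1
    linarith
  have hQmem : ∀ q ∈ Q, q.Prime ∧ X + d < q ∧ q ≤ X + y ∧ ∀ h, 1 ≤ h → h ≤ d → ¬ (q - h).Prime := by
    intro q hq
    rw [hQ, Finset.mem_sdiff, mem_union, not_or] at hq
    obtain ⟨a1, a2, a3⟩ := hq
    rw [hPr, mem_filter, mem_Ioc] at a1
    have a4 : X + d < q := by
      by_contra hcon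
      exact a3 (mem_Ioc.2 ⟨a1.1.1, not_lt.1 hcon⟩)
    refine ⟨a1.2, a4, a1.1.2, fun h h1 h2 hpr => a2 ?_⟩
    rw [hBd, mem_filter, mem_Ioc]
    exact ⟨a1.1, a1.2, h, mem_Icc.2 ⟨h1, h2⟩, hpr, by omega⟩
  have hinj : (Q ×ˢ range d).card ≤ ((Ioc X (X + y)).filter
      (fun n => ∃ p : ℕ, p.Prime ∧ n < p ∧ p ≤ n + d)).card := by
    apply card_le_card_of_injOn (fun q => q.1 - 1 - q.2)
    · rintro ⟨q, j⟩ hqj
      rw [mem_coe, mem_product, mem_range] at hqj
      obtain ⟨b1, b2, b3, b4⟩ := hQmem q hqj.1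
      have hj : j < d := hqj.2
      rw [mem_coe, mem_filter, mem_Ioc]
      refine ⟨⟨?_, ?_⟩, q, b1, ?_, ?_⟩ <;> dsimp only <;> omega
    · rintro ⟨q, j⟩ hqj ⟨q', j'⟩ hqj' heq
      rw [mem_coe, mem_product, mem_range] at hqj hqj'
      obtain ⟨b1, b2, b3, b4⟩ := hQmem q hqj.1
      obtain ⟨b1', b2', b3', b4'⟩ := hQmem q' hqj'.1
      have hj : j < d := hqj.2
      have hj' : j' < d := hqj'.2
      dsimp only at heq b1 b2 b1' b2' b4 b4'
      rcases lt_trichotomy q q' with h | h | h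
      · exfalso
        have := b4' (q' - q) (by omega) (by omega)
        rw [show q' - (q' - q) = q by omega] at this
        exact this b1
      · subst h
        rw [Prod.mk.injEq]
        exact ⟨rfl, by omega⟩
      · exfalso
        have := b4 (q - q') (by omega) (by omega)
        rw [show q - (q - q') = q' by omega] at this
        exact this b1'
  rw [card_product, card_range] at hinj
  have hfin : ((Q.card * d : ℕ) : ℝ) ≤ (((Ioc X (X + y)).filter
      (fun n => ∃ p : ℕ, p.Prime ∧ n < p ∧ p ≤ n + d)).card : ℝ) := by exact_mod_cast hinj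
  refine le_trans ?_ hfin
  push_cast
  calc δ / 16 * (y : ℝ) = (y / (8 * L)) * (δ * L / 2) := by field_simp; norm_num
    _ ≤ Q.card * d := mul_le_mul hQc hdl (by positivity) (Nat.cast_nonneg _)

end Pool.Agent.R527.MT
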