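import Mathlib
import Pool.Agent.R527.MT.Num1
import Pool.Agent.R526.AA.Short

/-! Long gaps between primes in windows `(X, X + η X]`, with the right order (helper527). -/

set_option autoImplicit false

namespace Pool.Agent.R527.MT

open Finset Filter Topology

/-- a prime followed by a gap longer than `l` -/
def Lg (l p : ℕ) : Prop := p.Prime ∧ ∀ q : ℕ, q.Prime → p < q → p + l < q

/-- a free block near a prime yields a long gap -/
theorem exists_long {X n i l d : ℕ} (hXn : X ≤ n) (hX : 1 ≤ X) (hdl : d ≤ l)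
    (hp : ∃ p : ℕ, p.Prime ∧ n < p ∧ p ≤ n + d)
    (hi : ∀ m ∈ Ioc (n + i * l) (n + (i + 1) * l), ∃ p : ℕ, p.Prime ∧ (p : ℝ) ≤ (X : ℝ) ^ (1 / 2 : ℝ) ∧ p ∣ m) :
    ∃ p, Lg l p ∧ n < p ∧ p ≤ n + i * l := by
  classical
  have hX1 : (1 : ℝ) ≤ X := by exact_mod_cast hX
  have hfree : ∀ q : ℕ, q.Prime → ¬ (n + i * l < q ∧ q ≤ n + (i + 1) * l) := by
    rintro q hq ⟨h1, h2⟩
    obtain ⟨p, hp1, hp2, hp3⟩ := hi q (mem_Ioc.2 ⟨h1, h2⟩)
    have h3 : p = q := (Nat.prime_dvd_prime_iff_eq hp1 hq).1 hp3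
    subst h3
    have h4 : (X : ℝ) ^ (1 / 2 : ℝ) ≤ X := by
      calc (X : ℝ) ^ (1 / 2 : ℝ) ≤ (X : ℝ) ^ (1 : ℝ) := Real.rpow_le_rpow_of_exponent_le hX1 (by norm_num)
        _ = X := Real.rpow_one _
    have h5 : (p : ℝ) ≤ X := hp2.trans h4
    have h6 : p ≤ X := by exact_mod_cast h5
    omega
  obtain ⟨p₀, hp0, hp1, hp2⟩ := hp
  have hi1 : 1 ≤ i := by
    rcases Nat.eq_zero_or_pos i with h0 | h0
    · exfalso
      subst h0
      apply hfree p₀ hp0
      constructor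
      · simpa using hp1
      · simp only [zero_add, one_mul]; omega
    · exact h0
  have hli : l ≤ i * l := Nat.le_mul_of_pos_left l hi1
  set T := (Ioc n (n + i * l)).filter Nat.Prime with hT
  have hTne : T.Nonempty := ⟨p₀, by rw [hT, mem_filter, mem_Ioc]; exact ⟨⟨hp1, by omega⟩, hp0⟩⟩
  have hmax := T.max'_mem hTne
  set p := T.max' hTne with hpdef
  rw [hT, mem_filter, mem_Ioc] at hmax
  refine ⟨p, ⟨hmax.2, fun q hq hpq => ?_⟩, hmax.1.1, hmax.1.2⟩
  by_contra hcon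
  rw [not_lt] at hcon
  by_cases hqi : q ≤ n + i * l
  · have : q ≤ p := T.le_max' q (by rw [hT, mem_filter, mem_Ioc]; exact ⟨⟨by omega, hqi⟩, hq⟩)
    omega
  · apply hfree q hq
    refine ⟨by omega, ?_⟩
    have : (i + 1) * l = i * l + l := by ring
    omega

open Classical in
/-- many long gaps in windows -/
theorem long_gaps (lam : ℝ) (hlam : 1 ≤ lam) : ∃ c : ℝ, 0 < c ∧ ∃ K : ℕ, ∀ η : ℝ, 0 < η → η ≤ 1 →
    ∀ᶠ X : ℕ in atTop, c * (⌊η * X⌋₊ / Real.log X) ≤
      (((Ioc X (X + ⌊η * X⌋₊ + K * ⌈lam * Real.log X⌉₊)).filter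
        (fun p => Lg ⌈lam * Real.log X⌉₊ p)).card : ℝ) := by
  obtain ⟨δ, hδ0, hδ1, hnp⟩ := near_prime
  obtain ⟨c₁, hc₁, K₀, hs⟩ := Pool.Agent.R526.AA.short (1 / 2) lam (δ / 32) (by norm_num) (by norm_num)
    (by linarith) (by positivity)
  set K := K₀ + 1 with hK
  obtain ⟨x₀, hx₀⟩ := hs K (by omega)
  have hK0 : (0 : ℝ) < K := by rw [hK]; positivity
  refine ⟨δ / 32 / (K * (2 * lam)), by positivity, K, fun η hη hη1 => ?_⟩
  have t : Tendsto (fun N : ℕ => (N : ℝ)) atTop atTop := tendsto_natCast_atTop_atTop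
  filter_upwards [hnp η hη hη1, floor_ge η hη, eventually_ge_atTop (max x₀ 1), tLog.eventually_ge_atTop 1,
    t.eventually_ge_atTop (4 / η ^ 2)] with X h1 h2 h3 h4 h5
  set y := ⌊η * X⌋₊ with hy
  set L := Real.log (X : ℝ) with hL
  set l := ⌈lam * L⌉₊ with hl
  have hX1 : 1 ≤ X := (le_max_right _ _).trans h3
  have hX1r : (1 : ℝ) ≤ X := by exact_mod_cast hX1
  have hX0 : (0 : ℝ) < X := by linarith
  have hL0 : 0 < L := by linarith
  have hyX : y ≤ X := by
    have : (y : ℝ) ≤ η * X := Nat.floor_le (by positivity)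
    have : (y : ℝ) ≤ X := by nlinarith
    exact_mod_cast this
  have hyX2 : (X : ℝ) ^ (1 / 2 : ℝ) ≤ y := by
    refine le_trans ?_ h2
    rw [← Real.sqrt_eq_rpow]
    rw [div_le_iff₀ (by positivity)] at h5
    have h6 : 2 ≤ η * Real.sqrt X := by
      have : (2 : ℝ) ^ 2 ≤ (η * Real.sqrt X) ^ 2 := by
        rw [mul_pow, Real.sq_sqrt hX0.le]; linarith
      exact (pow_le_pow_iff_left₀ (by norm_num) (by positivity) two_ne_zero).1 this
    have h7 := Real.mul_self_sqrt hX0.le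
    have h8 := Real.sqrt_nonneg (X : ℝ)
    nlinarith
  have hbad := hx₀ X y ((le_max_left _ _).trans h3) hyX2 hyX
  set Bad := (Ioc X (X + y)).filter (fun n =>
        (((range K).filter (fun i => ∀ m ∈ Ioc (n + i * l)
          (n + (i + 1) * l), ∃ p : ℕ, p.Prime ∧ (p : ℝ) ≤ (X : ℝ) ^ (1 / 2 : ℝ) ∧
            p ∣ m)).card : ℝ) < c₁ * K) with hBad
  set G := (Ioc X (X + y)).filter (fun n => ∃ p : ℕ, p.Prime ∧ n < p ∧ p ≤ n + ⌊δ * L⌋₊) with hG
  set S := (Ioc X (X + y + K * l)).filter (fun p => Lg l p) with hS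
  have hdl : ⌊δ * L⌋₊ ≤ l := by
    have e1 : δ * L ≤ lam * L := mul_le_mul_of_nonneg_right (by linarith) hL0.le
    exact (Nat.floor_le_floor e1).trans (Nat.floor_le_ceil _)
  have hcov : G \ Bad ⊆ S.biUnion (fun p => Ico (p - K * l) p) := by
    intro n hn
    rw [Finset.mem_sdiff] at hn
    obtain ⟨hn1, hn2⟩ := hn
    rw [hG, mem_filter, mem_Ioc] at hn1
    have hn3 : ∃ i, i < K ∧ ∀ m ∈ Ioc (n + i * l)
          (n + (i + 1) * l), ∃ p : ℕ, p.Prime ∧ (p : ℝ) ≤ (X : ℝ) ^ (1 / 2 : ℝ) ∧ p ∣ m := by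
      by_contra hcon
      apply hn2
      rw [hBad, mem_filter, mem_Ioc]
      refine ⟨hn1.1, ?_⟩
      have e : (range K).filter (fun i => ∀ m ∈ Ioc (n + i * l)
          (n + (i + 1) * l), ∃ p : ℕ, p.Prime ∧ (p : ℝ) ≤ (X : ℝ) ^ (1 / 2 : ℝ) ∧
            p ∣ m) = ∅ := by
        apply Finset.eq_empty_of_forall_notMem
        intro i hi
        have hi' := (@mem_filter _ _ (_) _ _).1 hi
        exact hcon ⟨i, mem_range.1 hi'.1, hi'.2⟩
      rw [e]
      simp only [card_empty, Nat.cast_zero]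
      positivity
    obtain ⟨i, hiK, hi⟩ := hn3
    obtain ⟨p, hp1, hp2, hp3⟩ := exists_long hn1.1.1.le hX1 hdl hn1.2 hi
    have hil : i * l ≤ K * l := Nat.mul_le_mul_right l hiK.le
    rw [mem_biUnion]
    refine ⟨p, ?_, ?_⟩
    · rw [hS, mem_filter, mem_Ioc]
      exact ⟨⟨by omega, by omega⟩, hp1⟩
    · rw [mem_Ico]; omega
  have hc1 : (G \ Bad).card ≤ S.card * (K * l) := by
    calc (G \ Bad).card ≤ (S.biUnion (fun p => Ico (p - K * l) p)).card := card_le_card hcov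
      _ ≤ ∑ p ∈ S, (Ico (p - K * l) p).card := card_biUnion_le
      _ ≤ ∑ p ∈ S, K * l := sum_le_sum fun p _ => by rw [Nat.card_Ico]; omega
      _ = _ := by rw [sum_const, smul_eq_mul]
  have hc2 : G.card ≤ (G \ Bad).card + Bad.card := by
    calc G.card ≤ ((G \ Bad) ∪ Bad).card := by
          apply card_le_card
          rw [sdiff_union_self_eq_union]
          exact subset_union_left
      _ ≤ _ := card_union_le _ _
  have hc3 : (G.card : ℝ) ≤ S.card * (K * l) + Bad.card := by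
    have : G.card ≤ S.card * (K * l) + Bad.card := by omega
    exact_mod_cast this
  have hll : (l : ℝ) ≤ 2 * lam * L := by
    have := Nat.ceil_lt_add_one (show 0 ≤ lam * L by positivity)
    rw [← hl] at this
    nlinarith
  have h6 : δ / 32 * (y : ℝ) ≤ S.card * (K * (2 * lam * L)) := by
    have e1 : (S.card : ℝ) * (K * l) ≤ S.card * (K * (2 * lam * L)) := by
      apply mul_le_mul_of_nonneg_left _ (Nat.cast_nonneg _)
      exact mul_le_mul_of_nonneg_left hll hK0.le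
    linarith
  have h7 : δ / 32 / (K * (2 * lam)) * (y / L) = δ / 32 * y / (K * (2 * lam * L)) := by
    field_simp
  rw [h7, div_le_iff₀ (by positivity)]
  exact h6

end Pool.Agent.R527.MT
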