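import Mathlib
import Pool.Agent.R527.MT.Num2

/-! The distance to the nearest prime in windows (helper527). -/

set_option autoImplicit false

namespace Pool.Agent.R527.MT

open Finset Filter Topology MeasureTheory
open scoped ENNReal

/-- the primes as a set of real numbers -/
def PS : Set ℝ := {y : ℝ | ∃ p : ℕ, p.Prime ∧ (p : ℝ) = y}

/-- the distance to the nearest prime -/
noncomputable def D (z : ℝ) : ℝ := Metric.infDist z PS

/-- the points whose distance to the nearest prime, divided by the logarithm, is in `(u, v)` -/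
def F (u v : ℝ) : Set ℝ := {z | u * Real.log z < D z ∧ D z < v * Real.log z}

theorem PS_nonempty : PS.Nonempty := ⟨2, 2, Nat.prime_two, by norm_num⟩

theorem measurableSet_F (u v : ℝ) : MeasurableSet (F u v) := by
  have h1 : Measurable D := (Metric.continuous_infDist_pt PS).measurable
  exact (measurableSet_lt (Real.measurable_log.const_mul u) h1).inter
    (measurableSet_lt h1 (Real.measurable_log.const_mul v))

/-- the distance to the nearest prime in a long gap -/
theorem D_eq {l p : ℕ} (hp : Lg l p) {z : ℝ} (h0 : (p : ℝ) ≤ z) (h1 : 2 * (z - p) ≤ l) : D z = z - p := by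
  apply le_antisymm
  · have := Metric.infDist_le_dist_of_mem (x := z) (show (p : ℝ) ∈ PS from ⟨p, hp.1, rfl⟩)
    rw [Real.dist_eq, abs_of_nonneg (by linarith)] at this
    exact this
  · unfold D
    rw [Metric.le_infDist PS_nonempty]
    rintro y ⟨q, hq, rfl⟩
    rw [Real.dist_eq]
    by_cases h : q ≤ p
    · have : (q : ℝ) ≤ p := by exact_mod_cast h
      refine le_trans ?_ (le_abs_self _)
      linarith
    · have h2 := hp.2 q hq (by omega)
      have h3 : (p : ℝ) + l < q := by exact_mod_cast h2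
      refine le_trans ?_ (neg_le_abs _)
      linarith

theorem meas_lower (u v : ℝ) (hu : 0 ≤ u) (huv : u < v) : ∃ c : ℝ, 0 < c ∧ ∀ η : ℝ, 0 < η → η ≤ 1 →
    ∀ᶠ X : ℕ in atTop, ENNReal.ofReal (c * ⌊η * X⌋₊) ≤
      volume (F u v ∩ Set.Icc (X : ℝ) (X + 2 * ⌊η * X⌋₊)) := by
  classical
  set lam : ℝ := 2 * v + 1 with hlam
  have hv : 0 < v := by linarith
  obtain ⟨c, hc, K, h⟩ := long_gaps lam (by linarith)
  refine ⟨c * ((v - u) / 2), mul_pos hc (by linarith), fun η hη hη1 => ?_⟩
  have hM0 : (0 : ℝ) < 2 * K * lam + v + 1 := by positivity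
  filter_upwards [h η hη hη1, floor_ge η hη, tLog.eventually_ge_atTop (max 1 (4 * u / (v - u))),
    log_small (η / (2 * (2 * K * lam + v + 1))) (by positivity), eventually_ge_atTop 1]
    with X h1 h2 h3 h4 h5
  set y := ⌊η * X⌋₊ with hy
  set L := Real.log (X : ℝ) with hL
  set l := ⌈lam * L⌉₊ with hl
  have hL1 : 1 ≤ L := (le_max_left _ _).trans h3
  have hL0 : 0 < L := by linarith
  have hLu : 4 * u ≤ L * (v - u) := by
    have := (le_max_right _ _).trans h3
    rwa [div_le_iff₀ (by linarith)] at this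
  have hX1 : (1 : ℝ) ≤ X := by exact_mod_cast h5
  have hX0 : (0 : ℝ) < X := by linarith
  have hyX : (y : ℝ) ≤ X := by
    have : (y : ℝ) ≤ η * X := Nat.floor_le (by positivity)
    nlinarith
  have hll : (l : ℝ) ≤ 2 * lam * L := by
    have := Nat.ceil_lt_add_one (show 0 ≤ lam * L by positivity)
    rw [← hl] at this
    nlinarith
  have hlge : lam * L ≤ l := Nat.le_ceil _
  have hKy : (K : ℝ) * l + v * L ≤ y := by
    have e1 : (K : ℝ) * l ≤ K * (2 * lam * L) := mul_le_mul_of_nonneg_left hll (Nat.cast_nonneg _)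
    have e2 : Real.sqrt X ≤ X := by
      rw [Real.sqrt_le_left hX0.le]
      nlinarith
    have e3 : (2 * K * lam + v + 1) * L ≤ η / 2 * X := by
      have e4 : L ≤ η / (2 * (2 * K * lam + v + 1)) * X := h4.trans
        (mul_le_mul_of_nonneg_left e2 (by positivity))
      calc (2 * K * lam + v + 1) * L ≤ (2 * K * lam + v + 1) * (η / (2 * (2 * K * lam + v + 1)) * X) :=
            mul_le_mul_of_nonneg_left e4 hM0.le
        _ = η / 2 * X := by field_simp
    linarith
  set S := (Ioc X (X + y + K * l)).filter (fun p => Lg l p) with hS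
  set w : ℝ := v * L - u * (L + 2) with hw
  have hwL : (v - u) / 2 * L ≤ w := by rw [hw]; nlinarith
  have hw0 : 0 < w := lt_of_lt_of_le (mul_pos (by linarith) hL0) hwL
  set J : ℕ → Set ℝ := fun p => Set.Ioo ((p : ℝ) + u * (L + 2)) (p + v * L) with hJ
  have hJm : ∀ p ∈ S, MeasurableSet (J p) := fun p _ => measurableSet_Ioo
  have hSmem : ∀ p ∈ S, X < p ∧ p ≤ X + y + K * l ∧ Lg l p := by
    intro p hp
    rw [hS, mem_filter, mem_Ioc] at hp
    exact ⟨hp.1.1, hp.1.2, hp.2⟩
  have hu2 : 0 ≤ u * (L + 2) := by positivity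
  have hdisj : (S : Set ℕ).PairwiseDisjoint J := by
    have key : ∀ p ∈ S, ∀ q ∈ S, p < q → Disjoint (J p) (J q) := by
      intro p hp q hq hpq
      obtain ⟨a1, a2, a3⟩ := hSmem p hp
      obtain ⟨b1, b2, b3⟩ := hSmem q hq
      have h6 := a3.2 q b3.1 hpq
      have h7 : (p : ℝ) + l < q := by exact_mod_cast h6
      rw [Set.disjoint_left]
      rintro z ⟨z1, z2⟩ ⟨z3, z4⟩
      nlinarith
    intro p hp q hq hpq
    rcases lt_or_gt_of_ne hpq with h | h
    · exact key p hp q hq h
    · exact (key q hq p hp h).symm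
  have hsub : (⋃ p ∈ S, J p) ⊆ F u v ∩ Set.Icc (X : ℝ) (X + 2 * y) := by
    intro z hz
    rw [Set.mem_iUnion₂] at hz
    obtain ⟨p, hp, z1, z2⟩ := hz
    obtain ⟨a1, a2, a3⟩ := hSmem p hp
    have a1' : (X : ℝ) < p := by exact_mod_cast a1
    have a2' : (p : ℝ) ≤ X + y + K * l := by exact_mod_cast a2
    have hzX : (X : ℝ) ≤ z := by linarith
    have hzX2 : z ≤ X + 2 * y := by linarith
    have hlz : L ≤ Real.log z := Real.log_le_log hX0 hzX
    have hlz2 : Real.log z ≤ L + 2 := by
      have e1 : z ≤ Real.exp 2 * X := by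
        have e2 : (3 : ℝ) ≤ Real.exp 2 := by
          have := Real.add_one_le_exp (2 : ℝ)
          linarith
        nlinarith
      calc Real.log z ≤ Real.log (Real.exp 2 * X) := Real.log_le_log (by linarith) e1
        _ = L + 2 := by rw [Real.log_mul (Real.exp_pos _).ne' hX0.ne', Real.log_exp]; ring
    have hD : D z = z - p := by
      apply D_eq a3 (by linarith)
      nlinarith
    refine ⟨⟨?_, ?_⟩, hzX, hzX2⟩
    · rw [hD]
      have : u * Real.log z ≤ u * (L + 2) := mul_le_mul_of_nonneg_left hlz2 hu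
      linarith
    · rw [hD]
      have : v * L ≤ v * Real.log z := mul_le_mul_of_nonneg_left hlz hv.le
      linarith
  refine le_trans ?_ (measure_mono hsub)
  rw [measure_biUnion_finset hdisj hJm]
  have hvol : ∀ p ∈ S, volume (J p) = ENNReal.ofReal w := by
    intro p _
    simp only [hJ]
    rw [Real.volume_Ioo]
    congr 1
    rw [hw]; ring
  rw [sum_congr rfl hvol, sum_const, nsmul_eq_mul, ← ENNReal.ofReal_natCast,
    ← ENNReal.ofReal_mul (Nat.cast_nonneg _)]
  apply ENNReal.ofReal_le_ofReal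
  have h1' : c * (y / L) ≤ (S.card : ℝ) := by
    exact h1.trans (le_of_eq (by rw [hS]))
  have hvu : 0 < (v - u) / 2 := by linarith
  calc c * ((v - u) / 2) * (y : ℝ) = (c * (y / L)) * ((v - u) / 2 * L) := by field_simp
    _ ≤ S.card * w := mul_le_mul h1' hwL (by positivity) (Nat.cast_nonneg _)

/-- the set `F u v` has positive lower relative density in every window `[x, (1 + η) x]`, uniformly
in `η` -/
theorem dens (u v : ℝ) (hu : 0 ≤ u) (huv : u < v) : ∃ c : ℝ, 0 < c ∧ c ≤ 1 ∧ ∀ η : ℝ, 0 < η → η ≤ 1 →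
    ∃ x₀ : ℝ, ∀ x, x₀ ≤ x → ENNReal.ofReal (c * (η * x)) ≤ volume (F u v ∩ Set.Icc x ((1 + η) * x)) := by
  obtain ⟨c, hc, h⟩ := meas_lower u v hu huv
  refine ⟨min (c / 8) 1, by positivity, min_le_right _ _, fun η hη hη1 => ?_⟩
  obtain ⟨X₀, hX₀⟩ := eventually_atTop.1 ((h (η / 4) (by positivity) (by linarith)).and
    (floor_ge (η / 4) (by positivity)))
  refine ⟨max X₀ (max 1 (4 / η)), fun x hx => ?_⟩
  have hx0 : (X₀ : ℝ) ≤ x := (le_max_left _ _).trans hx
  have hx1 : 1 ≤ x := (le_max_left _ _).trans ((le_max_right _ _).trans hx)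
  have hx2 : 4 / η ≤ x := (le_max_right _ _).trans ((le_max_right _ _).trans hx)
  rw [div_le_iff₀ hη] at hx2
  set X := ⌈x⌉₊ with hX
  have hXx : x ≤ X := Nat.le_ceil _
  have hXx1 : (X : ℝ) < x + 1 := Nat.ceil_lt_add_one (by linarith)
  have hX₀X : X₀ ≤ X := by
    have : (X₀ : ℝ) ≤ X := hx0.trans hXx
    exact_mod_cast this
  obtain ⟨h1, h2⟩ := hX₀ X hX₀X
  set y := ⌊η / 4 * X⌋₊ with hy
  have hy1 : (y : ℝ) ≤ η / 4 * X := Nat.floor_le (by positivity)
  have hsub : F u v ∩ Set.Icc (X : ℝ) (X + 2 * y) ⊆ F u v ∩ Set.Icc x ((1 + η) * x) := by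
    apply Set.inter_subset_inter_right
    apply Set.Icc_subset_Icc hXx
    nlinarith
  refine le_trans (ENNReal.ofReal_le_ofReal ?_) (h1.trans (measure_mono hsub))
  have e1 : η / 8 * x ≤ y := by
    refine le_trans ?_ h2
    nlinarith
  calc min (c / 8) 1 * (η * x) ≤ c / 8 * (η * x) :=
        mul_le_mul_of_nonneg_right (min_le_left _ _) (by positivity)
    _ = c * (η / 8 * x) := by ring
    _ ≤ c * y := mul_le_mul_of_nonneg_left e1 hc.le

end Pool.Agent.R527.MT
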